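import Mathlib
import Pool.Agent.Lib.H58FracMaxFinal
import Pool.Agent.C29.Unbounded

open Finset MeasureTheory

namespace Pool.Agent.Results.MP_2332c1_an.CenteredEndpointFails

variable {d : ℕ}

/-- A lattice point of `ℤ^d`, viewed as a vector of `ℝ^d`. -/
def toReal (m : Fin d → ℤ) : Fin d → ℝ := fun i => (m i : ℝ)

/-- The closed set `Ω̄(x, r)`: it is `{y : r⁻¹ (y - x) ∈ closure Ω}` for `r ≠ 0`, and `{x}` for
`r = 0`. -/
def dilate (Ω : Set (Fin d → ℝ)) (x : Fin d → ℝ) (r : ℝ) : Set (Fin d → ℝ) :=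
  open Classical in if r = 0 then {x} else {y | r⁻¹ • (y - x) ∈ closure Ω}

/-- The lattice points of `Ω̄(x, r)`. -/
def lattice (Ω : Set (Fin d → ℝ)) (x : Fin d → ℝ) (r : ℝ) : Set (Fin d → ℤ) :=
  {m | toReal m ∈ dilate Ω x r}

/-- `N(x, r)`, the number of lattice points of `Ω̄(x, r)`. -/
noncomputable def count (Ω : Set (Fin d → ℝ)) (x : Fin d → ℝ) (r : ℝ) : ℕ :=
  (lattice Ω x r).ncard

/-- The centered discrete fractional maximal function `ℳ_{Ω,β} f`. -/
noncomputable def centered (Ω : Set (Fin d → ℝ)) (β : ℝ) (f : (Fin d → ℤ) → ℝ)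
    (n : Fin d → ℤ) : ℝ :=
  ⨆ r : {r : ℝ // 0 ≤ r}, (1 / (count Ω 0 r : ℝ) ^ (1 - β / d)) *
    ∑' m : lattice Ω 0 r, |f (n + m)|

/-- The discrete gradient, as a vector of Euclidean space. -/
noncomputable def grad (g : (Fin d → ℤ) → ℝ) (n : Fin d → ℤ) : EuclideanSpace ℝ (Fin d) :=
  WithLp.toLp 2 (fun i => g (n + Pi.single i 1) - g n)

open Pool.Agent.Lib.H58FracMax

lemma lattice_eq {Ω : Set (Fin d → ℝ)} {ρ R : ℝ} (h : Body (closure Ω) ρ R) (x : Fin d → ℝ)
    {r : ℝ} (_hr : 0 ≤ r) : lattice Ω x r = LS (closure Ω) x r := by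
  ext m
  unfold lattice LS dilate
  simp only [Set.mem_ofPred_eq]
  by_cases h0 : r = 0
  · rw [if_pos h0, Set.mem_singleton_iff]
    constructor
    · intro hm
      exact ⟨0, h.zero_mem, by rw [h0, zero_smul, add_zero]; exact hm⟩
    · rintro ⟨z, _, hz⟩
      rw [h0, zero_smul, add_zero] at hz
      exact hz
  · rw [if_neg h0, Set.mem_ofPred_eq]
    constructor
    · intro hm
      refine ⟨_, hm, ?_⟩
      rw [smul_smul, mul_inv_cancel₀ h0, one_smul]
      change toReal m = x + (toReal m - x)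
      abel
    · rintro ⟨z, hz, hzz⟩
      have : toReal m - x = r • z := by
        change toReal m = x + r • z at hzz
        rw [hzz]; abel
      rw [this, smul_smul, inv_mul_cancel₀ h0, one_smul]
      exact hz

lemma L_translate {K : Set (Fin d → ℝ)} {ρ R : ℝ} (h : Body K ρ R) (n : Fin d → ℤ)
    {r : ℝ} (hr : 0 ≤ r) : h.L (toR n) hr = (h.L 0 hr).map (addLeftEmbedding n) := by
  ext m
  rw [h.mem_L, Finset.mem_map]
  constructor
  · rintro ⟨z, hz, hm⟩
    refine ⟨m - n, ?_, by simp⟩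
    rw [h.mem_L]
    refine ⟨z, hz, ?_⟩
    rw [toR_sub, hm]; abel
  · rintro ⟨m', hm', rfl⟩
    rw [h.mem_L] at hm'
    obtain ⟨z, hz, hm⟩ := hm'
    refine ⟨z, hz, ?_⟩
    rw [addLeftEmbedding_apply, toR_add, hm]; abel

lemma term_eq {Ω : Set (Fin d → ℝ)} {ρ R : ℝ} (h : Body (closure Ω) ρ R) (β : ℝ)
    (f : (Fin d → ℤ) → ℝ) (n : Fin d → ℤ) {r : ℝ} (hr : 0 ≤ r) :
    (1 / (count Ω 0 r : ℝ) ^ (1 - β / d)) * ∑' m : lattice Ω 0 r, |f (n + m)|
      = avg (1 - β / d) (fun m => |f m|) (h.L (toR n) hr) := by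
  have h1 : lattice Ω 0 r = ((h.L 0 hr : Finset (Fin d → ℤ)) : Set (Fin d → ℤ)) := by
    rw [lattice_eq h 0 hr, h.coe_L]
  unfold count avg
  rw [h1, Set.ncard_coe_finset, L_translate h n hr, Finset.card_map, Finset.sum_map,
    Finset.tsum_subtype' (h.L 0 hr) (fun m => |f (n + m)|), Real.rpow_neg (Nat.cast_nonneg _),
    one_div]
  rfl

lemma isLUB_centered {Ω : Set (Fin d → ℝ)} {ρ R : ℝ} (h : Body (closure Ω) ρ R) {β : ℝ}
    (hs : 0 ≤ 1 - β / d) {f : (Fin d → ℤ) → ℝ} (hf : Summable f) (n : Fin d → ℤ) :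
    IsLUB {a | ∃ B ∈ cen (closure Ω) n, a = avg (1 - β / d) (fun m => |f m|) B}
      (centered Ω β f n) := by
  have h1 : {a | ∃ B ∈ cen (closure Ω) n, a = avg (1 - β / d) (fun m => |f m|) B}
      = Set.range (fun r : {r : ℝ // 0 ≤ r} => (1 / (count Ω 0 r : ℝ) ^ (1 - β / d)) *
    ∑' m : lattice Ω 0 r, |f (n + m)|) := by
    ext a
    constructor
    · rintro ⟨B, ⟨r, hr, hB⟩, rfl⟩
      obtain rfl := h.eq_L hr hB
      exact ⟨⟨r, hr⟩, term_eq h β f n hr⟩
    · rintro ⟨⟨r, hr⟩, rfl⟩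
      exact ⟨h.L (toR n) hr, ⟨r, hr, h.coe_L _ hr⟩, term_eq h β f n hr⟩
  rw [h1]
  refine isLUB_ciSup ?_
  refine ⟨∑' m, |f m|, ?_⟩
  rintro _ ⟨⟨r, hr⟩, rfl⟩
  simp only
  rw [term_eq h β f n hr]
  exact avg_le_tsum hs (fun _ => abs_nonneg _) hf.abs _

open Pool.Agent.C29

lemma ball_subset_KK (m : ℕ) : Metric.ball (0 : RPt m) (1 / 8) ⊆ KK m := by
  intro x hx
  rw [mem_ball_zero_iff] at hx
  exact body_KK.inner x fun i => (norm_le_pi_norm x i).trans hx.le

lemma zero_mem_interior (m : ℕ) : (0 : RPt m) ∈ interior (KK m) :=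
  interior_mono (ball_subset_KK m) (by
    rw [Metric.isOpen_ball.interior_eq]
    exact Metric.mem_ball_self (by norm_num))

lemma isBounded_KK (m : ℕ) : Bornology.IsBounded (KK m) := by
  refine (Metric.isBounded_closedBall (x := (0 : RPt m)) (r := 1)).subset fun x hx => ?_
  rw [mem_closedBall_zero_iff, pi_norm_le_iff_of_nonneg zero_le_one]
  exact fun i => body_KK.outer x hx i

lemma closure_interior_KK (m : ℕ) : closure (interior (KK m)) = KK m := by
  rw [(convex_KK (m := m)).closure_interior_eq_closure_of_nonempty_interior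
    ⟨0, zero_mem_interior m⟩, isClosed_KK.closure_eq]

lemma neg_mem_interior (m : ℕ) {x : RPt m} (hx : x ∈ interior (KK m)) :
    -x ∈ interior (KK m) := by
  have h1 : (fun y : RPt m => -y) ⁻¹' interior (KK m) ⊆ interior (KK m) := by
    refine interior_maximal ?_ (isOpen_interior.preimage continuous_neg)
    intro y hy
    have h0 : -y ∈ KK m := interior_subset (s := KK m) hy
    have h2 : InK 1 (-y) := h0
    have h3 := h2.neg
    rw [neg_neg] at h3
    exact h3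
  apply h1
  rw [Set.mem_preimage, neg_neg]
  exact hx

/-- **The centered endpoint bound fails for `β = 0`.** For every `d ≥ 3` there is a bounded open
convex `Ω ∋ 0`, symmetric about `0`, such that no constant `C` satisfies
`‖∇ℳ_{Ω,0} f‖₁ ≤ C ‖∇f‖₁` for all finitely supported `f : ℤ^d → ℝ`: for every `C` some finitely
supported `f` and some finite set of points `n` have `∑ |∇ℳ_{Ω,0} f(n)| > C ‖∇f‖₁`. -/
theorem result (d : ℕ) (hd : 3 ≤ d) :
    ∃ Ω : Set (Fin d → ℝ), IsOpen Ω ∧ Bornology.IsBounded Ω ∧ Convex ℝ Ω ∧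
      (0 : Fin d → ℝ) ∈ Ω ∧ (∀ x ∈ Ω, -x ∈ Ω) ∧
      ∀ C : ℝ, ∃ f : (Fin d → ℤ) → ℝ, (Function.support f).Finite ∧
        ∃ F : Finset (Fin d → ℤ),
          C * ∑' n, ‖grad f n‖ < ∑ n ∈ F, ‖grad (centered Ω 0 f) n‖ := by
  obtain ⟨m, rfl⟩ : ∃ m, d = m + 3 := ⟨d - 3, by omega⟩
  refine ⟨interior (KK m), isOpen_interior, (isBounded_KK m).subset interior_subset,
    (convex_KK (m := m)).interior, zero_mem_interior m, fun x hx => neg_mem_interior m hx,
    fun C => ?_⟩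
  obtain ⟨s, n, h⟩ := unbounded m C
  refine ⟨tf m s n, tf_support m s n, ?_⟩
  have hbody : Body (closure (interior (KK m))) (1 / 8) 1 := by
    rw [closure_interior_KK]
    exact body_KK
  have hsum : Summable (tf m s n) := summable_of_hasFiniteSupport (tf_support m s n)
  have h10 : (1 : ℝ) - 0 / ((m + 3 : ℕ) : ℝ) = 1 := by simp
  obtain ⟨F, hF⟩ := h (centered (interior (KK m)) 0 (tf m s n)) (fun z => by
    have h1 := isLUB_centered hbody (β := 0) (by rw [h10]; exact zero_le_one) hsum z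
    rw [h10, closure_interior_KK] at h1
    exact h1)
  exact ⟨F, hF⟩

end Pool.Agent.Results.MP_2332c1_an.CenteredEndpointFails
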