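import Mathlib
import Pool.Agent.Lib.H58FracMaxFinal

open Finset MeasureTheory

namespace Pool.Agent.Results.MP_2332c1_an.CenteredPositiveBeta

variable {d : ℕ}

/-- A lattice point of `ℤ^d`, viewed as a vector of `ℝ^d`. -/
def toReal (m : Fin d → ℤ) : Fin d → ℝ := fun i => (m i : ℝ)

/-- The closed set `Ω̄(x, r)`: it is `{y : r⁻¹ (y - x) ∈ closure Ω}` for `r ≠ 0`, and `{x}` for
`r = 0`. -/
def dilate (Ω : Set (Fin d → ℝ)) (x : Fin d → ℝ) (r : ℝ) : Set (Fin d → ℝ) :=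
  open Classical in if r = 0 then {x} else {y | r⁻¹ • (y - x) ∈ closure Ω}

/-- The lattice points of `Ω̄(x, r)`. -/
def lattice (Ω : Set (Fin d → ℝ)) (x : Fin d → ℝ) (r : ℝ) : Set (Fin d → ℤ) :=
  {m | toReal m ∈ dilate Ω x r}

/-- `N(x, r)`, the number of lattice points of `Ω̄(x, r)`. -/
noncomputable def count (Ω : Set (Fin d → ℝ)) (x : Fin d → ℝ) (r : ℝ) : ℕ :=
  (lattice Ω x r).ncard

/-- The centered discrete fractional maximal function `ℳ_{Ω,β} f`. -/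
noncomputable def centered (Ω : Set (Fin d → ℝ)) (β : ℝ) (f : (Fin d → ℤ) → ℝ)
    (n : Fin d → ℤ) : ℝ :=
  ⨆ r : {r : ℝ // 0 ≤ r}, (1 / (count Ω 0 r : ℝ) ^ (1 - β / d)) *
    ∑' m : lattice Ω 0 r, |f (n + m)|

/-- The discrete gradient, as a vector of Euclidean space. -/
noncomputable def grad (g : (Fin d → ℤ) → ℝ) (n : Fin d → ℤ) : EuclideanSpace ℝ (Fin d) :=
  WithLp.toLp 2 (fun i => g (n + Pi.single i 1) - g n)

open Pool.Agent.Lib.H58FracMax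

lemma lattice_eq {Ω : Set (Fin d → ℝ)} {ρ R : ℝ} (h : Body (closure Ω) ρ R) (x : Fin d → ℝ)
    {r : ℝ} (_hr : 0 ≤ r) : lattice Ω x r = LS (closure Ω) x r := by
  ext m
  unfold lattice LS dilate
  simp only [Set.mem_ofPred_eq]
  by_cases h0 : r = 0
  · rw [if_pos h0, Set.mem_singleton_iff]
    constructor
    · intro hm
      exact ⟨0, h.zero_mem, by rw [h0, zero_smul, add_zero]; exact hm⟩
    · rintro ⟨z, _, hz⟩
      rw [h0, zero_smul, add_zero] at hz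
      exact hz
  · rw [if_neg h0, Set.mem_ofPred_eq]
    constructor
    · intro hm
      refine ⟨_, hm, ?_⟩
      rw [smul_smul, mul_inv_cancel₀ h0, one_smul]
      change toReal m = x + (toReal m - x)
      abel
    · rintro ⟨z, hz, hzz⟩
      have : toReal m - x = r • z := by
        change toReal m = x + r • z at hzz
        rw [hzz]; abel
      rw [this, smul_smul, inv_mul_cancel₀ h0, one_smul]
      exact hz

lemma L_translate {K : Set (Fin d → ℝ)} {ρ R : ℝ} (h : Body K ρ R) (n : Fin d → ℤ)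
    {r : ℝ} (hr : 0 ≤ r) : h.L (toR n) hr = (h.L 0 hr).map (addLeftEmbedding n) := by
  ext m
  rw [h.mem_L, Finset.mem_map]
  constructor
  · rintro ⟨z, hz, hm⟩
    refine ⟨m - n, ?_, by simp⟩
    rw [h.mem_L]
    refine ⟨z, hz, ?_⟩
    rw [toR_sub, hm]; abel
  · rintro ⟨m', hm', rfl⟩
    rw [h.mem_L] at hm'
    obtain ⟨z, hz, hm⟩ := hm'
    refine ⟨z, hz, ?_⟩
    rw [addLeftEmbedding_apply, toR_add, hm]; abel

lemma term_eq {Ω : Set (Fin d → ℝ)} {ρ R : ℝ} (h : Body (closure Ω) ρ R) (β : ℝ)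
    (f : (Fin d → ℤ) → ℝ) (n : Fin d → ℤ) {r : ℝ} (hr : 0 ≤ r) :
    (1 / (count Ω 0 r : ℝ) ^ (1 - β / d)) * ∑' m : lattice Ω 0 r, |f (n + m)|
      = avg (1 - β / d) (fun m => |f m|) (h.L (toR n) hr) := by
  have h1 : lattice Ω 0 r = ((h.L 0 hr : Finset (Fin d → ℤ)) : Set (Fin d → ℤ)) := by
    rw [lattice_eq h 0 hr, h.coe_L]
  unfold count avg
  rw [h1, Set.ncard_coe_finset, L_translate h n hr, Finset.card_map, Finset.sum_map,
    Finset.tsum_subtype' (h.L 0 hr) (fun m => |f (n + m)|), Real.rpow_neg (Nat.cast_nonneg _),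
    one_div]
  rfl

lemma isLUB_centered {Ω : Set (Fin d → ℝ)} {ρ R : ℝ} (h : Body (closure Ω) ρ R) {β : ℝ}
    (hs : 0 ≤ 1 - β / d) {f : (Fin d → ℤ) → ℝ} (hf : Summable f) (n : Fin d → ℤ) :
    IsLUB {a | ∃ B ∈ cen (closure Ω) n, a = avg (1 - β / d) (fun m => |f m|) B}
      (centered Ω β f n) := by
  have h1 : {a | ∃ B ∈ cen (closure Ω) n, a = avg (1 - β / d) (fun m => |f m|) B}
      = Set.range (fun r : {r : ℝ // 0 ≤ r} => (1 / (count Ω 0 r : ℝ) ^ (1 - β / d)) *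
    ∑' m : lattice Ω 0 r, |f (n + m)|) := by
    ext a
    constructor
    · rintro ⟨B, ⟨r, hr, hB⟩, rfl⟩
      obtain rfl := h.eq_L hr hB
      exact ⟨⟨r, hr⟩, term_eq h β f n hr⟩
    · rintro ⟨⟨r, hr⟩, rfl⟩
      exact ⟨h.L (toR n) hr, ⟨r, hr, h.coe_L _ hr⟩, term_eq h β f n hr⟩
  rw [h1]
  refine isLUB_ciSup ?_
  refine ⟨∑' m, |f m|, ?_⟩
  rintro _ ⟨⟨r, hr⟩, rfl⟩
  simp only
  rw [term_eq h β f n hr]
  exact avg_le_tsum hs (fun _ => abs_nonneg _) hf.abs _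

/-- **Endpoint gradient bound, centered case, all `0 < β < 1`.** For every `d ≥ 1`, every bounded
open convex `Ω ∋ 0`, every `0 < β < 1` and `0 ≤ α ≤ β`, with `q = d / (d - β + α)`, there is a
constant `C` such that for every `f ∈ ℓ¹(ℤ^d)` the gradient of `ℳ_{Ω,β} f` is in `ℓ^q` and
`‖∇ℳ_{Ω,β} f‖_q ≤ C ‖∇f‖₁^{1-α} ‖f‖₁^α`. -/
theorem result (d : ℕ) (hd : 1 ≤ d) (Ω : Set (Fin d → ℝ)) (hΩo : IsOpen Ω)
    (hΩb : Bornology.IsBounded Ω) (hΩc : Convex ℝ Ω) (h0 : (0 : Fin d → ℝ) ∈ Ω)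
    (β α q : ℝ) (hβ0 : 0 < β) (hβ1 : β < 1) (hα0 : 0 ≤ α) (hαβ : α ≤ β)
    (hq : q = d / (d - β + α)) :
    ∃ C : ℝ, ∀ f : (Fin d → ℤ) → ℝ, Summable f →
      Summable (fun n => ‖grad (centered Ω β f) n‖ ^ q) ∧
      (∑' n, ‖grad (centered Ω β f) n‖ ^ q) ^ (1 / q) ≤
        C * (∑' n, ‖grad f n‖) ^ (1 - α) * (∑' n, |f n|) ^ α := by
  have hd1 : (1 : ℝ) ≤ d := by exact_mod_cast hd
  obtain ⟨ρ, R, h⟩ := exists_body hΩo hΩb hΩc h0
  obtain ⟨C, hG⟩ := h.good_cen hd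
  have hβd : β < d := by linarith
  have hs : 0 ≤ 1 - β / d := by
    rw [sub_nonneg, div_le_one (by linarith)]; linarith
  obtain ⟨C', hC'⟩ := finalBound hd hα0 (by linarith) hαβ hβ0 hβd hq hG
  exact ⟨C', fun f hf => hC' f hf (centered Ω β f) fun n => isLUB_centered h hs hf n⟩

end Pool.Agent.Results.MP_2332c1_an.CenteredPositiveBeta
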