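import Mathlib
import Pool.Agent.Results.MP_2332c1_an.CenteredEndpointFails
import Pool.Agent.Results.MP_2332c1_an.CenteredPositiveBeta
import Pool.Agent.Results.MP_2332c1_an.UncenteredAllBeta

open Finset MeasureTheory

namespace Pool.Agent.Results.MP_2332c1_an.CompleteAnswer

variable {d : ℕ}

/-- The sets admitted in the question: bounded, open, convex, containing `0` (such sets have
Lipschitz boundary). -/
def Admissible (Ω : Set (Fin d → ℝ)) : Prop :=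
  IsOpen Ω ∧ Bornology.IsBounded Ω ∧ Convex ℝ Ω ∧ (0 : Fin d → ℝ) ∈ Ω

/-- A lattice point of `ℤ^d`, viewed as a vector of `ℝ^d`. -/
def toReal (m : Fin d → ℤ) : Fin d → ℝ := fun i => (m i : ℝ)

/-- The closed set `Ω̄(x, r)`: it is `{y : r⁻¹ (y - x) ∈ closure Ω}` for `r ≠ 0`, and `{x}` for
`r = 0`. -/
def dilate (Ω : Set (Fin d → ℝ)) (x : Fin d → ℝ) (r : ℝ) : Set (Fin d → ℝ) :=
  open Classical in if r = 0 then {x} else {y | r⁻¹ • (y - x) ∈ closure Ω}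

/-- The lattice points of `Ω̄(x, r)`. -/
def lattice (Ω : Set (Fin d → ℝ)) (x : Fin d → ℝ) (r : ℝ) : Set (Fin d → ℤ) :=
  {m | toReal m ∈ dilate Ω x r}

/-- `N(x, r)`, the number of lattice points of `Ω̄(x, r)`. -/
noncomputable def count (Ω : Set (Fin d → ℝ)) (x : Fin d → ℝ) (r : ℝ) : ℕ :=
  (lattice Ω x r).ncard

/-- The centered discrete fractional maximal function `ℳ_{Ω,β} f`. -/
noncomputable def centered (Ω : Set (Fin d → ℝ)) (β : ℝ) (f : (Fin d → ℤ) → ℝ)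
    (n : Fin d → ℤ) : ℝ :=
  ⨆ r : {r : ℝ // 0 ≤ r}, (1 / (count Ω 0 r : ℝ) ^ (1 - β / d)) *
    ∑' m : lattice Ω 0 r, |f (n + m)|

/-- The uncentered discrete fractional maximal function `ℳ̃_{Ω,β} f`: the supremum runs over all
`x ∈ ℝ^d`, `r ≥ 0` with `n ∈ Ω̄(x, r)`. -/
noncomputable def uncentered (Ω : Set (Fin d → ℝ)) (β : ℝ) (f : (Fin d → ℤ) → ℝ)
    (n : Fin d → ℤ) : ℝ :=
  ⨆ p : {p : (Fin d → ℝ) × ℝ // 0 ≤ p.2 ∧ n ∈ lattice Ω p.1 p.2},
    (1 / (count Ω p.1.1 p.1.2 : ℝ) ^ (1 - β / d)) * ∑' m : lattice Ω p.1.1 p.1.2, |f m|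

/-- The discrete gradient, as a vector of Euclidean space. -/
noncomputable def grad (g : (Fin d → ℤ) → ℝ) (n : Fin d → ℤ) : EuclideanSpace ℝ (Fin d) :=
  WithLp.toLp 2 (fun i => g (n + Pi.single i 1) - g n)

/-- The endpoint bound `(*)` for the operator `M`, with exponents `β`, `α` and
`q = d / (d - β + α)`: there is a constant `C` such that for every `f ∈ ℓ¹(ℤ^d)` the gradient of
`M f` is in `ℓ^q` and `‖∇ M f‖_q ≤ C ‖∇f‖₁^{1-α} ‖f‖₁^α`. -/
def EndpointBound (M : ((Fin d → ℤ) → ℝ) → (Fin d → ℤ) → ℝ) (β α : ℝ) : Prop :=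
  ∃ C : ℝ, ∀ f : (Fin d → ℤ) → ℝ, Summable f →
    Summable (fun n => ‖grad (M f) n‖ ^ ((d : ℝ) / (d - β + α))) ∧
    (∑' n, ‖grad (M f) n‖ ^ ((d : ℝ) / (d - β + α))) ^ (1 / ((d : ℝ) / (d - β + α))) ≤
      C * (∑' n, ‖grad f n‖) ^ (1 - α) * (∑' n, |f n|) ^ α

/-- **The complete answer.** The endpoint bounds hold for the uncentered operators for all
`d ≥ 1`, all admissible `Ω` and all `0 ≤ α ≤ β < 1`, and for the centered operators as soon as
`β > 0`; for the centered operators with `β = α = 0` they fail, for every `d ≥ 3` and some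
admissible `Ω`. -/
theorem result :
    (∀ d : ℕ, 1 ≤ d → ∀ Ω : Set (Fin d → ℝ), Admissible Ω →
      ∀ β α : ℝ, 0 ≤ α → α ≤ β → β < 1 →
        EndpointBound (uncentered Ω β) β α ∧
          (0 < β → EndpointBound (centered Ω β) β α)) ∧
    (∀ d : ℕ, 3 ≤ d → ∃ Ω : Set (Fin d → ℝ), Admissible Ω ∧
      ¬ EndpointBound (centered Ω 0) 0 0) := by
  refine ⟨?_, ?_⟩
  · intro d hd Ω hΩ β α hα0 hαβ hβ1
    obtain ⟨hΩo, hΩb, hΩc, h0⟩ := hΩ
    exact ⟨UncenteredAllBeta.result d hd Ω hΩo hΩb hΩc h0 β α _ hβ1 hα0 hαβ rfl,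
      fun hβ0 => CenteredPositiveBeta.result d hd Ω hΩo hΩb hΩc h0 β α _ hβ0 hβ1 hα0 hαβ rfl⟩
  · intro d hd
    obtain ⟨Ω, hΩo, hΩb, hΩc, h0, -, h⟩ := CenteredEndpointFails.result d hd
    refine ⟨Ω, ⟨hΩo, hΩb, hΩc, h0⟩, ?_⟩
    rintro ⟨C, hC⟩
    obtain ⟨f, hf, F, hF⟩ := h C
    have hd0 : (d : ℝ) ≠ 0 := by
      have : 0 < d := by omega
      exact_mod_cast this.ne'
    have hq : (d : ℝ) / (d - 0 + 0) = 1 := by
      rw [sub_zero, add_zero, div_self hd0]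
    obtain ⟨h1, h2⟩ := hC f (summable_of_hasFiniteSupport hf)
    rw [hq] at h1 h2
    simp only [Real.rpow_one, div_one, sub_zero, Real.rpow_zero, mul_one] at h1 h2
    have h3 : ∑ n ∈ F, ‖grad (centered Ω 0 f) n‖ ≤ ∑' n, ‖grad (centered Ω 0 f) n‖ :=
      h1.sum_le_tsum F fun _ _ => norm_nonneg _
    exact absurd (h3.trans h2) (not_le.2 hF)

end Pool.Agent.Results.MP_2332c1_an.CompleteAnswer
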